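import Mathlib
import Pool.Agent.LRG.StmtsC

set_option autoImplicit false

/-! Row NSF of the squad LRG: the number of subfields of a normal field. -/

namespace Pool.Agent.LRG.H65

open Pool.Agent.LRG

theorem nsf : CX.NsfStmt := by
  intro m L hN hF hm
  have : Normal ℚ L := hN
  have : FiniteDimensional ℚ L := hF
  have hG : IsGalois ℚ L := { }
  classical
  have hcardG : Nat.card (L ≃ₐ[ℚ] L) ≤ m := by
    rw [IsGalois.card_aut_eq_finrank]
    exact hm
  have hfinG : Finite (L ≃ₐ[ℚ] L) := inferInstance
  have hft : Fintype (L ≃ₐ[ℚ] L) := Fintype.ofFinite _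
  have hinj : Function.Injective (fun E : IntermediateField ℚ L =>
      ((E.fixingSubgroup : Subgroup (L ≃ₐ[ℚ] L)) : Set (L ≃ₐ[ℚ] L))) := by
    intro E E' h
    have h1 : E.fixingSubgroup = E'.fixingSubgroup := SetLike.coe_injective h
    rw [← IsGalois.fixedField_fixingSubgroup E, ← IsGalois.fixedField_fixingSubgroup E', h1]
  have hfinS : Finite (Set (L ≃ₐ[ℚ] L)) := inferInstance
  have hfinI : Finite (IntermediateField ℚ L) := Finite.of_injective _ hinj
  have hcardI : Nat.card (IntermediateField ℚ L) ≤ 2 ^ m := by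
    have h1 := Nat.card_le_card_of_injective _ hinj
    have h2 : Nat.card (Set (L ≃ₐ[ℚ] L)) = 2 ^ Nat.card (L ≃ₐ[ℚ] L) := by
      rw [Nat.card_eq_fintype_card, Nat.card_eq_fintype_card, Fintype.card_set]
    rw [h2] at h1
    exact h1.trans (Nat.pow_le_pow_right (by norm_num) hcardG)
  have hsub : {E : IntermediateField ℚ ℂ | E ≤ L} ⊆
      (fun E : IntermediateField ℚ L => IntermediateField.lift E) '' Set.univ := by
    intro E hE
    exact ⟨IntermediateField.restrict hE, Set.mem_univ _, IntermediateField.lift_restrict hE⟩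
  calc {E : IntermediateField ℚ ℂ | E ≤ L}.encard
      ≤ ((fun E : IntermediateField ℚ L => IntermediateField.lift E) '' Set.univ).encard :=
        Set.encard_le_encard hsub
    _ ≤ (Set.univ : Set (IntermediateField ℚ L)).encard := Set.encard_image_le _ _
    _ = ((Nat.card (IntermediateField ℚ L) : ℕ) : ℕ∞) := by
        rw [Set.encard_univ, ENat.card_eq_coe_natCard]
    _ ≤ ((2 ^ m : ℕ) : ℕ∞) := by exact_mod_cast hcardI
    _ = 2 ^ m := by push_cast; rfl

end Pool.Agent.LRG.H65
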