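import Mathlib
import Pool.Agent.LRG.StmtsB3

set_option autoImplicit false

/-! Row GVP of the squad LRG: a relation given by its coefficients is a polynomial. -/

namespace Pool.Agent.LRG.H65

open Pool.Agent.LRG

theorem gvp : GvpStmt := by
  intro n D c hc
  obtain ⟨α0, hα0⟩ := Function.ne_iff.mp hc
  obtain ⟨fse, hfse⟩ : ∃ fse : (Fin n → Fin (D + 1)) → (Fin n →₀ ℕ),
      ∀ α i, fse α i = (α i : ℕ) :=
    ⟨fun α => Finsupp.equivFunOnFinite.symm fun i => (α i : ℕ), fun _ _ => rfl⟩
  have hinj : ∀ α β, fse α = fse β → α = β := by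
    intro α β h
    funext i
    apply Fin.ext
    rw [← hfse α i, ← hfse β i, h]
  refine ⟨∑ α, MvPolynomial.monomial (fse α) (c α), ?_, ?_, ?_⟩
  · intro h0
    apply hα0
    have h1 : MvPolynomial.coeff (fse α0) (∑ α, MvPolynomial.monomial (fse α) (c α)) = c α0 := by
      rw [MvPolynomial.coeff_sum, Finset.sum_eq_single α0]
      · rw [MvPolynomial.coeff_monomial, if_pos rfl]
      · intro β _ hβ
        rw [MvPolynomial.coeff_monomial, if_neg]
        intro h
        exact hβ (hinj _ _ h)
      · intro h
        exact absurd (Finset.mem_univ _) h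
    rw [← h1, h0]
    rfl
  · apply MvPolynomial.totalDegree_finsetSum_le
    intro α _
    refine (MvPolynomial.totalDegree_monomial_le _ _).trans ?_
    rw [Finsupp.sum_fintype _ _ (fun _ => rfl)]
    calc ∑ i, fse α i ≤ ∑ _i : Fin n, D := Finset.sum_le_sum fun i _ => by
          rw [hfse]
          exact Nat.lt_succ_iff.mp (α i).isLt
      _ = n * D := by rw [Finset.sum_const, Finset.card_univ, Fintype.card_fin, smul_eq_mul]
  · intro w
    unfold gv
    rw [map_sum]
    apply Finset.sum_congr rfl
    intro α _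
    rw [MvPolynomial.eval_monomial, Finsupp.prod_fintype _ _ (fun _ => pow_zero _)]
    congr 1
    apply Finset.prod_congr rfl
    intro i _
    rw [hfse]

end Pool.Agent.LRG.H65
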