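import Mathlib
import Pool.Agent.LRG.StmtsR2

set_option autoImplicit false

/-! Row REL of the squad LRG: the relations on a chart. -/

open Polynomial

namespace Pool.Agent.LRG.H65

open Pool.Agent.LRG Pool.Agent.LRG.R2

theorem rel : R2.RelStatement := by
  intro hrlf m k E δ
  obtain ⟨D, hD⟩ := hrlf m k E δ
  refine ⟨D, fun T G hch h hh => ?_⟩
  have hcast : Int.castRingHom ℤ = RingHom.id ℤ := Subsingleton.elim _ _
  rcases T.eq_empty_or_nonempty with hT | ⟨x0, hx0⟩
  · refine ⟨fun _ => 1, fun q hq => ⟨fun _ => 0, fun hdvd => ?_⟩, fun x hx => ?_⟩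
    · have h1 := Int.isUnit_iff.mp (isUnit_of_dvd_one hdvd)
      rcases h1 with h1 | h1
      · have h2 : q = 1 := by exact_mod_cast h1
        exact hq.one_lt.ne' h2
      · have h3 : (0 : ℤ) ≤ (q : ℤ) := Int.natCast_nonneg q
        omega
    · rw [hT] at hx
      exact absurd hx (Finset.notMem_empty x)
  · obtain ⟨hb, hpt⟩ := hch
    have hdeg : ∀ j, 1 ≤ (G j).natDegree := by
      intro j
      by_contra hcon
      have h0 : (G j).natDegree = 0 := by omega
      have h1 : derivative (G j) = 0 := by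
        rw [Polynomial.eq_C_of_natDegree_eq_zero h0, Polynomial.derivative_C]
      apply (hpt j x0 hx0).2.1
      rw [h1]
      unfold gev
      exact Polynomial.eval₂_zero _ _
    obtain ⟨c, hc1, hc2⟩ := hD G (fun j => ⟨hdeg j, (hb j).2.1, (hb j).2.2⟩) h hh
    refine ⟨c, hc1, fun x hx => ?_⟩
    have h3 := hc2 ℤ x (fun j => (hpt j x hx).1) (fun j => by
      rw [hcast]
      exact (hpt j x hx).2.2)
    rw [hcast] at h3
    simp only [Int.cast_id] at h3
    exact h3

end Pool.Agent.LRG.H65
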